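import Pool.Agent.N943.DS.Pr
import Pool.Agent.N375.AV.D

/-!
# All large divisors of almost all integers and shifted primes keep away from sets with a power saving

Let `S` have `O_ε (X ^ (s + ε))` elements of height at most `X`, and let `G` be expanding of growth `v ^ e`, `e s + κ < 1`.
Then for all `n ≤ X` but `K X y ^ (-c)`, for EVERY divisor `d ≥ y` of `n`, no element of `S` has a height within `d ^ κ` of
`G d`, and similarly for the divisors of the shifted primes `p + b`. (Forms of the tool `Pool.Agent.N943.DS` of helper943 for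
applications.)
-/

set_option autoImplicit false

namespace Pool.Agent.V8H78.DV

open Finset Classical
open Pool.Agent.N733.TG (Expanding NearG nearG_count)
open Pool.Agent.N375.AV (Thin thin_of_power)

/-- the set of the `n ≤ X` with a divisor `d ≥ y` in `E` -/
def DivBad (E : Set ℕ) (X y : ℕ) : Set ℕ := {n | 1 ≤ n ∧ n ≤ X ∧ ∃ d : ℕ, d ∣ n ∧ y ≤ d ∧ d ∈ E}

/-- the set of the primes `p ≤ X`, `|b| < p`, such that `p + b` has a divisor `d ≥ y` in `E` -/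
def ShiftBad (E : Set ℕ) (b : ℤ) (X y : ℕ) : Set ℕ :=
  {p | p.Prime ∧ |b| < p ∧ p ≤ X ∧ ∃ d : ℕ, (d : ℤ) ∣ (p : ℤ) + b ∧ y ≤ d ∧ d ∈ E}

lemma divBad_fin (E : Set ℕ) (X y : ℕ) : (DivBad E X y).Finite :=
  (Set.finite_Icc 1 X).subset fun _ hn => ⟨hn.1, hn.2.1⟩

lemma shiftBad_fin (E : Set ℕ) (b : ℤ) (X y : ℕ) : (ShiftBad E b X y).Finite :=
  (Set.finite_Icc 1 X).subset fun _ hn => ⟨hn.1.one_le, hn.2.2.1⟩

lemma exp_log_pow {y : ℕ} (hy : 1 ≤ y) (c : ℝ) : Real.exp (-(c * Real.log y ^ (1 : ℝ))) = (y : ℝ) ^ (-c) := by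
  have hy0 : (0 : ℝ) < y := by exact_mod_cast hy
  rw [Real.rpow_one, Real.rpow_def_of_pos hy0]
  congr 1
  ring

/-- the divisors of almost all integers and shifted primes avoid a set with a power saving -/
theorem power {θ K : ℝ} (hθ0 : 0 ≤ θ) (hθ1 : θ < 1) (E : Set ℕ)
    (hE : ∀ X : ℕ, 1 ≤ X → (((Icc 1 X).filter (fun v => v ∈ E)).card : ℝ) ≤ K * (X : ℝ) ^ θ) :
    ∃ c K' : ℝ, 0 < c ∧ 0 ≤ K' ∧
      (∀ X y : ℕ, 1 ≤ y → ((DivBad E X y).ncard : ℝ) ≤ K' * X * (y : ℝ) ^ (-c)) ∧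
      ∀ (b : ℤ) (X y : ℕ), 1 ≤ y → y ≤ X → 4 ≤ X →
        ((ShiftBad E b X y).ncard : ℝ) ≤ K' * (1 + |(b : ℝ)|) * (X / Real.log X) * (y : ℝ) ^ (-c) := by
  have hthin := thin_of_power hθ0 E hE
  have hc : 0 < 1 - θ := by linarith
  obtain ⟨K₁, hK₁, h1⟩ := Pool.Agent.N943.DS.ints (β := 1) (c := 1 - θ) (K := |K| + 1) one_pos hc (by positivity)
  obtain ⟨K₂, hK₂, h2⟩ := Pool.Agent.N943.DS.shifted (β := 1) (c := 1 - θ) (K := |K| + 1) one_pos le_rfl hc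
    (by positivity)
  refine ⟨(1 - θ) / 8, K₁ + K₂, by positivity, by positivity, fun X y hy => ?_, fun b X y hy hyX hX => ?_⟩
  · have e1 := h1 E hthin X y hy
    rw [exp_log_pow hy] at e1
    have hy1 : (1 : ℝ) ≤ y := by exact_mod_cast hy
    have e2 : (y : ℝ) ^ (-((1 - θ) / 2)) ≤ (y : ℝ) ^ (-((1 - θ) / 8)) :=
      Real.rpow_le_rpow_of_exponent_le hy1 (by linarith)
    have e3 : ((DivBad E X y).ncard : ℝ) ≤
        (((Icc 1 X).filter (fun n => ∃ d : ℕ, d ∣ n ∧ y ≤ d ∧ d ∈ E)).card : ℝ) := by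
      have hsub : DivBad E X y ⊆ (((Icc 1 X).filter (fun n => ∃ d : ℕ, d ∣ n ∧ y ≤ d ∧ d ∈ E) : Finset ℕ) : Set ℕ) := by
        rintro n ⟨h3, h4, h5⟩
        rw [mem_coe, mem_filter, mem_Icc]
        exact ⟨⟨h3, h4⟩, h5⟩
      have := Set.ncard_le_ncard hsub (finite_toSet _)
      rw [Set.ncard_coe_finset] at this
      exact_mod_cast this
    calc ((DivBad E X y).ncard : ℝ) ≤ K₁ * X * (y : ℝ) ^ (-((1 - θ) / 2)) := e3.trans e1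
      _ ≤ K₁ * X * (y : ℝ) ^ (-((1 - θ) / 8)) := mul_le_mul_of_nonneg_left e2 (by positivity)
      _ ≤ (K₁ + K₂) * X * (y : ℝ) ^ (-((1 - θ) / 8)) := by
        apply mul_le_mul_of_nonneg_right _ (by positivity)
        apply mul_le_mul_of_nonneg_right _ (Nat.cast_nonneg _)
        linarith
  · have e1 := h2 E hthin b X y hy hyX hX
    rw [exp_log_pow hy] at e1
    have hba' : ((b.natAbs : ℕ) : ℝ) = |(b : ℝ)| := by
      rw [Nat.cast_natAbs, Int.cast_abs]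
    rw [hba'] at e1
    have hlX : 0 < Real.log X := Real.log_pos (by exact_mod_cast (by omega : 1 < X))
    have e3 : ((ShiftBad E b X y).ncard : ℝ) ≤
        (((Icc 1 X).filter (fun p : ℕ => p.Prime ∧ b.natAbs < p ∧
        ∃ d : ℕ, (d : ℤ) ∣ (p : ℤ) + b ∧ y ≤ d ∧ d ∈ E)).card : ℝ) := by
      have hsub : ShiftBad E b X y ⊆ (((Icc 1 X).filter (fun p : ℕ => p.Prime ∧ b.natAbs < p ∧
        ∃ d : ℕ, (d : ℤ) ∣ (p : ℤ) + b ∧ y ≤ d ∧ d ∈ E) : Finset ℕ) : Set ℕ) := by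
        rintro p ⟨h3, h4, h5, h6⟩
        rw [mem_coe, mem_filter, mem_Icc]
        refine ⟨⟨h3.one_le, h5⟩, h3, ?_, h6⟩
        have : ((b.natAbs : ℕ) : ℤ) = |b| := Int.natCast_natAbs b
        omega
      have := Set.ncard_le_ncard hsub (finite_toSet _)
      rw [Set.ncard_coe_finset] at this
      exact_mod_cast this
    refine (e3.trans e1).trans ?_
    apply mul_le_mul_of_nonneg_right _ (by positivity)
    apply mul_le_mul_of_nonneg_right _ (by positivity)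
    apply mul_le_mul_of_nonneg_right _ (by positivity)
    linarith

/-- **Main tool.** -/
theorem windows {T : Type*} (S : Set T) (h : T → ℝ) {G : ℕ → ℝ} {e : ℝ}
    (hG : Expanding G e) {s κ : ℝ} (hs : 0 ≤ s) (hκ : 0 ≤ κ) (h1 : e * s + κ < 1)
    (hS : ∀ ε : ℝ, 0 < ε → ∃ C : ℝ, ∀ X : ℝ, 1 ≤ X →
      {t | t ∈ S ∧ h t ≤ X}.Finite ∧ ({t | t ∈ S ∧ h t ≤ X}.ncard : ℝ) ≤ C * X ^ (s + ε)) :
    ∃ c K : ℝ, 0 < c ∧ 0 ≤ K ∧
      (∀ X y : ℕ, 1 ≤ y → ((DivBad (NearG S h G κ) X y).ncard : ℝ) ≤ K * X * (y : ℝ) ^ (-c)) ∧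
      ∀ (b : ℤ) (X y : ℕ), 1 ≤ y → y ≤ X → 4 ≤ X →
        ((ShiftBad (NearG S h G κ) b X y).ncard : ℝ) ≤
          K * (1 + |(b : ℝ)|) * (X / Real.log X) * (y : ℝ) ^ (-c) := by
  have hd := hG.one_le
  obtain ⟨ε, hε⟩ : ∃ ε, ε = (1 - e * s - κ) / (2 * e) := ⟨_, rfl⟩
  have hε0 : 0 < ε := by
    rw [hε]
    apply div_pos (by linarith) (by linarith)
  have hεd : e * ε = (1 - e * s - κ) / 2 := by
    rw [hε]
    field_simp
  have hes : 0 ≤ e * s := by positivity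
  obtain ⟨K, hK⟩ := nearG_count S h hG (s := s + ε) (κ := κ) (by linarith) hκ (by linarith) (hS ε hε0)
  exact power (θ := e * (s + ε) + κ) (by positivity) (by rw [mul_add, hεd]; linarith) _ hK

/-- the case of a set of natural numbers; the number `0` is added to the set -/
theorem win_nat (P : Set ℕ) {G : ℕ → ℝ} {e : ℝ}
    (hG : Expanding G e) {s κ : ℝ} (hs : 0 ≤ s) (hκ : 0 ≤ κ) (h1 : e * s + κ < 1)
    (hP : ∀ ε : ℝ, 0 < ε → ∃ C : ℝ, ∀ X : ℕ, 1 ≤ X →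
      (((Ioc 0 X).filter (fun t => t ∈ P)).card : ℝ) ≤ C * (X : ℝ) ^ (s + ε)) :
    ∃ c K : ℝ, 0 < c ∧ 0 ≤ K ∧
      (∀ X y : ℕ, 1 ≤ y → ((DivBad {v | ∃ n : ℕ, (n = 0 ∨ n ∈ P) ∧ |(n : ℝ) - G v| ≤ (v : ℝ) ^ κ} X y).ncard : ℝ) ≤
        K * X * (y : ℝ) ^ (-c)) ∧
      ∀ (b : ℤ) (X y : ℕ), 1 ≤ y → y ≤ X → 4 ≤ X →
        ((ShiftBad {v | ∃ n : ℕ, (n = 0 ∨ n ∈ P) ∧ |(n : ℝ) - G v| ≤ (v : ℝ) ^ κ} b X y).ncard : ℝ) ≤
          K * (1 + |(b : ℝ)|) * (X / Real.log X) * (y : ℝ) ^ (-c) := by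
  refine windows {t : ℕ | t = 0 ∨ t ∈ P} (fun t : ℕ => (t : ℝ)) hG hs hκ h1 ?_
  intro ε hε
  obtain ⟨C, hC⟩ := hP ε hε
  refine ⟨|C| + 1, fun X hX => ?_⟩
  have hX1 : 1 ≤ ⌊X⌋₊ := Nat.le_floor (by exact_mod_cast hX)
  have hsub : {t : ℕ | t ∈ {t : ℕ | t = 0 ∨ t ∈ P} ∧ (t : ℝ) ≤ X} ⊆
      (((Ioc 0 ⌊X⌋₊).filter (fun t => t ∈ P) ∪ {0} : Finset ℕ) : Set ℕ) := by
    rintro t ⟨ht, htX⟩
    rw [mem_coe, mem_union, mem_filter, mem_Ioc, mem_singleton]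
    rcases Nat.eq_zero_or_pos t with h0 | h0
    · right; exact h0
    · left
      refine ⟨⟨h0, Nat.le_floor htX⟩, ?_⟩
      rcases ht with h | h
      · omega
      · exact h
  refine ⟨(finite_toSet _).subset hsub, ?_⟩
  have h2 := Set.ncard_le_ncard hsub (finite_toSet _)
  rw [Set.ncard_coe_finset] at h2
  have h3 : ((Ioc 0 ⌊X⌋₊).filter (fun t => t ∈ P) ∪ {0} : Finset ℕ).card ≤
      ((Ioc 0 ⌊X⌋₊).filter (fun t => t ∈ P)).card + 1 := (card_union_le _ _).trans (by simp)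
  have h4 : (({t : ℕ | t ∈ {t : ℕ | t = 0 ∨ t ∈ P} ∧ (t : ℝ) ≤ X}.ncard : ℕ) : ℝ) ≤
      (((Ioc 0 ⌊X⌋₊).filter (fun t => t ∈ P)).card : ℝ) + 1 := by exact_mod_cast h2.trans h3
  have h5 : (1 : ℝ) ≤ X ^ (s + ε) := Real.one_le_rpow hX (by linarith)
  have h6 : ((⌊X⌋₊ : ℕ) : ℝ) ^ (s + ε) ≤ X ^ (s + ε) :=
    Real.rpow_le_rpow (Nat.cast_nonneg _) (Nat.floor_le (by linarith)) (by linarith)
  calc _ ≤ (((Ioc 0 ⌊X⌋₊).filter (fun t => t ∈ P)).card : ℝ) + 1 := h4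
    _ ≤ C * ((⌊X⌋₊ : ℕ) : ℝ) ^ (s + ε) + 1 := by linarith [hC _ hX1]
    _ ≤ |C| * X ^ (s + ε) + 1 * X ^ (s + ε) := by
      have h7 : C * ((⌊X⌋₊ : ℕ) : ℝ) ^ (s + ε) ≤ |C| * X ^ (s + ε) :=
        (mul_le_mul_of_nonneg_right (le_abs_self _) (by positivity)).trans
          (mul_le_mul_of_nonneg_left h6 (abs_nonneg _))
      linarith
    _ = (|C| + 1) * X ^ (s + ε) := by ring

/-- For all `X` and `y ≥ 1`, for all but at most `K X y^(-c)` of the natural numbers `n ≤ X` the property `Q d` holds for ALL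
divisors `d ≥ y` of `n`, and for all integers `b` and `1 ≤ y ≤ X`, `X ≥ 4`, for all but at most
`K (1 + |b|) (X / log X) y^(-c)` of the primes `p`, `|b| < p ≤ X`, the property `Q d` holds for ALL divisors `d ≥ y` of
`p + b`. -/
def AllDivisors (c K : ℝ) (Q : ℕ → Prop) : Prop :=
  (∀ X y : ℕ, 1 ≤ y →
    ({n : ℕ | 1 ≤ n ∧ n ≤ X ∧ ¬ ∀ d : ℕ, d ∣ n → y ≤ d → Q d}.ncard : ℝ) ≤ K * X * (y : ℝ) ^ (-c)) ∧
  ∀ (b : ℤ) (X y : ℕ), 1 ≤ y → y ≤ X → 4 ≤ X →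
    ({p : ℕ | p.Prime ∧ |b| < p ∧ p ≤ X ∧ ¬ ∀ d : ℕ, (d : ℤ) ∣ (p : ℤ) + b → y ≤ d → Q d}.ncard : ℝ) ≤
      K * (1 + |(b : ℝ)|) * (X / Real.log X) * (y : ℝ) ^ (-c)

lemma all_of {c K : ℝ} {E : Set ℕ} {Q : ℕ → Prop} (hQ : ∀ v, 1 ≤ v → v ∉ E → Q v)
    (h1 : ∀ X y : ℕ, 1 ≤ y → ((DivBad E X y).ncard : ℝ) ≤ K * X * (y : ℝ) ^ (-c))
    (h2 : ∀ (b : ℤ) (X y : ℕ), 1 ≤ y → y ≤ X → 4 ≤ X →
        ((ShiftBad E b X y).ncard : ℝ) ≤ K * (1 + |(b : ℝ)|) * (X / Real.log X) * (y : ℝ) ^ (-c)) :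
    AllDivisors c K Q := by
  refine ⟨fun X y hy => le_trans ?_ (h1 X y hy), fun b X y hy hyX hX => le_trans ?_ (h2 b X y hy hyX hX)⟩
  · refine Nat.cast_le.2 (Set.ncard_le_ncard ?_ (divBad_fin E X y))
    rintro n ⟨g1, g2, g3⟩
    push Not at g3
    obtain ⟨d, hd, hyd, hq⟩ := g3
    refine ⟨g1, g2, d, hd, hyd, ?_⟩
    by_contra hE
    exact hq (hQ d (by omega) hE)
  · refine Nat.cast_le.2 (Set.ncard_le_ncard ?_ (shiftBad_fin E b X y))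
    rintro p ⟨g1, g2, g3, g4⟩
    push Not at g4
    obtain ⟨d, hd, hyd, hq⟩ := g4
    refine ⟨g1, g2, g3, d, hd, hyd, ?_⟩
    by_contra hE
    exact hq (hQ d (by omega) hE)

/-- **The tool for sets of natural numbers.** If `P` has `O_ε (X ^ (s + ε))` elements up to `X`, and `G` is expanding of
growth `v ^ e` with `e s + κ < 1`, then for all large divisors `d` of almost all integers and shifted primes no number which
is `0` or in `P` is within `d ^ κ` of `G d`. -/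
theorem all_nat (P : Set ℕ) {G : ℕ → ℝ} {e : ℝ}
    (hG : Expanding G e) {s κ : ℝ} (hs : 0 ≤ s) (hκ : 0 ≤ κ) (h1 : e * s + κ < 1)
    (hP : ∀ ε : ℝ, 0 < ε → ∃ C : ℝ, ∀ X : ℕ, 1 ≤ X →
      (((Ioc 0 X).filter (fun t => t ∈ P)).card : ℝ) ≤ C * (X : ℝ) ^ (s + ε))
    {Q : ℕ → Prop} (hQ : ∀ d : ℕ, 1 ≤ d → (∀ n : ℕ, (n = 0 ∨ n ∈ P) → ¬ |(n : ℝ) - G d| ≤ (d : ℝ) ^ κ) → Q d) :
    ∃ c K : ℝ, 0 < c ∧ 0 ≤ K ∧ AllDivisors c K Q := by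
  obtain ⟨c, K, hc, hK, h2, h3⟩ := win_nat P hG hs hκ h1 hP
  refine ⟨c, K, hc, hK, all_of (E := {v : ℕ | ∃ n : ℕ, (n = 0 ∨ n ∈ P) ∧ |(n : ℝ) - G v| ≤ (v : ℝ) ^ κ})
    (fun v hv hE => hQ v hv fun n hn hd => hE ⟨n, hn, hd⟩) h2 h3⟩

end Pool.Agent.V8H78.DV
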